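import Pool.Agent.Y630.TG.RcFault
import Pool.Agent.W906.MU.Final

/-! Unique games with imperfect completeness whose constraints are hidden in random faults. -/

set_option autoImplicit false

namespace Pool.Agent.X246.UGF

open Finset Pool.Agent.Y630.NW Pool.Agent.Y630.TF Pool.Agent.Y630.TG Pool.Agent.W969.MC
open Pool.Agent.W906.MU

lemma prog_conv {I : Type} {inp : Set (I → ℝ)} {l : List (I → ℝ)} (h : H630VC.Prog inp l) :
    Pool.Agent.W906.MU.Prog inp l := by
  induction h with
  | nil => exact Prog.nil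
  | input _ hf ih => exact Prog.input ih hf
  | gate _ hφ hf hg ih => exact Prog.gate ih hφ hf hg

/-- positions: a constraint and a tag -/
abbrev Pos (N q K : ℕ) : Type := Con N q × Fin K

/-- every constraint has at most one tag -/
def OneTag {N q K : ℕ} (x : Pos N q K → Bool) : Prop :=
  ∀ e e', x e = true → x e' = true → e.1 = e'.1 → e = e'

open Classical in
/-- no instances -/
def NoT {N q K : ℕ} (m : ℕ) (δ : ℝ) (x : Pos N q K → Bool) : Prop :=
  OneTag x ∧ (univ.filter fun e => x e = true).card = m ∧ ∀ A B : Fin N → Fin q,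
    ((univ.filter fun e => x e = true ∧ e.1.2.2 (A e.1.1) = B e.1.2.1).card : ℝ) ≤ δ * m

open Classical in
/-- yes instances -/
def YesT {N q K : ℕ} (m : ℕ) (ε : ℝ) (x : Pos N q K → Bool) : Prop :=
  OneTag x ∧ m ≤ (univ.filter fun e => x e = true).card ∧ ∃ A B : Fin N → Fin q,
    ((univ.filter fun e => x e = true ∧ ¬ e.1.2.2 (A e.1.1) = B e.1.2.1).card : ℝ) ≤ ε * m

section

variable {N q K : ℕ} [NeZero K]

open Classical in
/-- the bits of a game -/
noncomputable def encS (I : Game N q) : Con N q → Bool := fun c => decide (c ∈ I)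

lemma encS_true {I : Game N q} {c : Con N q} : encS I c = true ↔ c ∈ I := by
  classical
  unfold encS
  rw [decide_eq_true_iff]

/-- the game with the tags `τ` -/
noncomputable abbrev tagged (I : Game N q) (τ : Con N q → Fin K) : Pos N q K → Bool :=
  host (Function.Embedding.refl _) (fun _ => false) τ (encS I)

lemma tagged_true {I : Game N q} {τ : Con N q → Fin K} {e : Pos N q K} :
    tagged I τ e = true ↔ τ e.1 = e.2 ∧ e.1 ∈ I := by
  rw [host_true]
  constructor
  · rintro (h | ⟨x, h1, h2⟩)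
    · exact absurd h (by simp)
    · have h3 : (x, τ x) = e := h2
      rw [← h3]
      exact ⟨rfl, encS_true.mp h1⟩
  · rintro ⟨h1, h2⟩
    exact Or.inr ⟨e.1, encS_true.mpr h2, Prod.ext rfl h1⟩

lemma oneTag_tagged (I : Game N q) (τ : Con N q → Fin K) : OneTag (tagged I τ) := by
  intro e e' he he' h
  obtain ⟨h1, -⟩ := tagged_true.mp he
  obtain ⟨h2, -⟩ := tagged_true.mp he'
  refine Prod.ext h ?_
  rw [← h1, ← h2, h]

open Classical in
lemma tagged_count (I : Game N q) (τ : Con N q → Fin K) (P : Con N q → Prop) :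
    (univ.filter fun e : Pos N q K => tagged I τ e = true ∧ P e.1).card =
      (I.filter fun c => P c).card := by
  symm
  refine Finset.card_bij (fun c _ => (c, τ c)) ?_ ?_ ?_
  · intro c hc
    have hc' := Finset.mem_filter.mp hc
    rw [Finset.mem_filter]
    exact ⟨Finset.mem_univ _, tagged_true.mpr ⟨rfl, hc'.1⟩, hc'.2⟩
  · intro c _ c' _ h
    exact (Prod.mk.inj h).1
  · intro e he
    have he' := (Finset.mem_filter.mp he).2
    obtain ⟨h1, h2⟩ := tagged_true.mp he'.1
    exact ⟨e.1, Finset.mem_filter.mpr ⟨h2, he'.2⟩, Prod.ext rfl h1⟩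

open Classical in
lemma tagged_count' (I : Game N q) (τ : Con N q → Fin K) :
    (univ.filter fun e : Pos N q K => tagged I τ e = true).card = I.card := by
  have h := tagged_count I τ (fun _ => True)
  simpa using h

end

open Classical in
/-- circuits for unique games that tolerate faults of the negations -/
theorem ug_fault (q : ℕ) (hq : 1 ≤ q) (δ : ℝ) (hδ : 1 / (q : ℝ) < δ) :
    ∃ N0 : ℕ, ∀ N : ℕ, N0 ≤ N → ∃ m : ℕ, 0 < m ∧ ∀ ε : ℝ, (N : ℝ) ^ (-(1 / 139) : ℝ) ≤ ε →
    ∀ D K : ℕ, 1 ≤ D → D * (2 * Real.log N + q * Real.log q + 4) ≤ K →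
    ∀ (R : Type) [Fintype R] [Nonempty R] (C : R → RC (Pos N q K × Bool)) (s : ℕ)
      (_ : ∀ ρ, (C ρ).T = ∅) (_ : ∀ ρ, (C ρ).S ≤ s)
      (_ : ∀ x : Pos N q K → Bool, NoT m δ x →
        (4 / 5 : ℝ) * (Fintype.card R * (D : ℝ) ^ Fintype.card (Pos N q K)) ≤
        ({s : R × (Pos N q K → Fin D) | (C s.1).acc (lit x (Flt s.2))}.ncard : ℝ))
      (_ : ∀ x : Pos N q K → Bool, YesT m ε x →
        ({ρ : R | (C ρ).acc (lit x ∅)}.ncard : ℝ) ≤ 1 / 4 * Fintype.card R),
      (2 : ℝ) ^ ((N : ℝ) ^ (1 / 139 : ℝ)) ≤ 3 * s + 2 := by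
  obtain ⟨N0, H⟩ := lower q hq δ hδ
  refine ⟨max N0 1, ?_⟩
  intro N hN
  have hN0 : N0 ≤ N := (le_max_left _ _).trans hN
  have hN1 : 1 ≤ N := (le_max_right _ _).trans hN
  obtain ⟨m, hm, H⟩ := H N hN0
  refine ⟨m, hm, ?_⟩
  intro ε hε D K hD hK R _ _ C s hT hs h1 h2
  have hNR : (1 : ℝ) ≤ N := by exact_mod_cast hN1
  have hqR : (1 : ℝ) ≤ q := by exact_mod_cast hq
  have hDR : (1 : ℝ) ≤ D := by exact_mod_cast hD
  have hlogN : 0 ≤ Real.log N := Real.log_nonneg hNR
  have hlogq : 0 ≤ Real.log q := Real.log_nonneg hqR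
  have hK0 : 0 < K := by
    have h3 : (0 : ℝ) < K := by
      refine lt_of_lt_of_le ?_ hK
      have : (0 : ℝ) < 2 * Real.log N + q * Real.log q + 4 := by positivity
      positivity
    exact_mod_cast h3
  have _ : NeZero K := ⟨hK0.ne'⟩
  have hne : Nonempty (Con N q) := ⟨⟨⟨0, by omega⟩, ⟨0, by omega⟩, 1⟩⟩
  have hcard : (Fintype.card (Con N q) : ℝ) ≤ (N : ℝ) ^ 2 * (q : ℝ) ^ q := by
    have e1 : Fintype.card (Con N q) = N * (N * q.factorial) := by
      rw [Fintype.card_prod, Fintype.card_prod, Fintype.card_perm, Fintype.card_fin,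
        Fintype.card_fin]
    have e2 : (q.factorial : ℝ) ≤ (q : ℝ) ^ q := by exact_mod_cast Nat.factorial_le_pow q
    rw [e1]
    push_cast
    calc (N : ℝ) * (N * q.factorial) = (N : ℝ) ^ 2 * q.factorial := by ring
      _ ≤ _ := mul_le_mul_of_nonneg_left e2 (by positivity)
  have hpow0 : (0 : ℝ) ≤ (1 - 1 / (D : ℝ)) ^ K := by
    apply pow_nonneg
    rw [sub_nonneg, div_le_one (by linarith)]
    exact hDR
  have hbad : (Fintype.card (Con N q) : ℝ) * (1 - 1 / (D : ℝ)) ^ K ≤ 1 / 40 := by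
    refine (mul_le_mul_of_nonneg_right hcard hpow0).trans ?_
    refine places_bad hD (by positivity) ?_
    rw [Real.log_mul (by positivity) (by positivity), Real.log_pow, Real.log_pow]
    push_cast
    exact hK
  obtain ⟨l, hprog, hlen, f, hf, hdec⟩ := rc_fault (I := Game N q)
    (X := Con N q) (inputs N q) encS (fun c => by
      left
      refine ⟨c, ?_⟩
      funext I
      unfold Pool.Agent.H560R2.bit
      by_cases h3 : c ∈ I
      · rw [if_pos h3, if_pos (encS_true.mpr h3)]
      · rw [if_neg h3, if_neg (fun h4 => h3 (encS_true.mp h4))])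
    (fun c => Or.inr ⟨c, rfl⟩) (NoI m δ) (YesI m ε) hK0 hD C hT hbad
    (fun I hI τ => by
      refine h1 _ ⟨oneTag_tagged I τ, ?_, ?_⟩
      · rw [← hI.1]
        convert tagged_count' I τ
      · intro A B
        have e1 := tagged_count I τ (fun c => c.2.2 (A c.1) = B c.2.1)
        have e2 := hI.2 A B
        refine le_trans (le_of_eq ?_) e2
        congr 1
        refine Eq.trans ?_ (e1.trans ?_)
        · congr 1 <;> congr!
        · congr 1 <;> congr!)
    (fun I hI τ => by
      refine h2 _ ⟨oneTag_tagged I τ, ?_, ?_⟩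
      · refine hI.1.trans (le_of_eq ?_)
        convert (tagged_count' I τ).symm
      · obtain ⟨A, B, hAB⟩ := hI.2
        have e1 := tagged_count I τ (fun c => ¬ c.2.2 (A c.1) = B c.2.1)
        refine ⟨A, B, le_trans (le_of_eq ?_) hAB⟩
        congr 1
        refine Eq.trans ?_ (e1.trans ?_)
        · congr 1 <;> congr!
        · congr 1 <;> congr!)
  have : Nonempty (R × (Con N q → Fin K)) := ⟨(Classical.arbitrary R, fun _ => 0)⟩
  obtain ⟨ω, hω⟩ := H ε hε _ l (fun ω => prog_conv (hprog ω))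
    ⟨f, fun _ => 1, hf, fun I hI => by
      have h3 := (hdec I).1 hI
      have h4 : 2 * Fintype.card (R × (Con N q → Fin K)) ≤
        3 * (univ.filter fun ω => 1 ≤ f ω I).card := by omega
      convert h4, fun I hI => by
      have h3 := (hdec I).2 hI
      have h4 : 2 * Fintype.card (R × (Con N q → Fin K)) ≤
        3 * (univ.filter fun ω => f ω I < 1).card := by omega
      convert h4⟩
  refine hω.trans ?_
  have h3 : (l ω).length ≤ 3 * s + 2 := (hlen ω).trans (by have := hs ω.1; omega)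
  exact_mod_cast h3

end Pool.Agent.X246.UGF
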